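import Pool.Agent.Lib_helper75.RVM.Halving
/-! # Real-valued measurable cardinals and the strong polarized relation: combinatorial core -/

open MeasureTheory Set Filter Topology Cardinal

namespace Lib_helper75.RVM

/-- `Bad F`: the points `z` of Cantor space which, for infinitely many `n`, are constant on the
finite set `F n`, where `F n` has at least `n` elements. -/
def Bad (F : ℕ → Finset ℕ) : Set (ℕ → Bool) :=
  {z | ∃ᶠ n in atTop, n ≤ (F n).card ∧ ∃ b, ∀ j ∈ F n, z j = b}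

/-- Borel–Cantelli for `Bad`. -/
theorem measure_bad {Ω : Type*} {_ : MeasurableSpace Ω} (m : Measure Ω) (f : Ω → ℕ → Bool)
    (hf : ∀ (s : Finset ℕ) (b : Bool), m {ω | ∀ j ∈ s, f ω j = b} ≤ (2⁻¹ : ENNReal) ^ s.card)
    (F : ℕ → Finset ℕ) : m {ω | f ω ∈ Bad F} = 0 := by
  refine measure_setOfPred_frequently_eq_zero
    (p := fun n ω => n ≤ (F n).card ∧ ∃ b, ∀ j ∈ F n, f ω j = b) ?_
  have hle : ∀ n, m {ω | n ≤ (F n).card ∧ ∃ b, ∀ j ∈ F n, f ω j = b} ≤ 2 * (2⁻¹ : ENNReal) ^ n := by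
    intro n
    by_cases hn : n ≤ (F n).card
    · have h1 : {ω | n ≤ (F n).card ∧ ∃ b, ∀ j ∈ F n, f ω j = b}
          ⊆ {ω | ∀ j ∈ F n, f ω j = true} ∪ {ω | ∀ j ∈ F n, f ω j = false} := by
        rintro ω ⟨-, b, hb⟩
        cases b with
        | true => exact Or.inl hb
        | false => exact Or.inr hb
      refine (measure_mono h1).trans ((measure_union_le _ _).trans ?_)
      have h2 : (2⁻¹ : ENNReal) ^ (F n).card ≤ (2⁻¹ : ENNReal) ^ n :=
        pow_le_pow_right_of_le_one' (by norm_num) hn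
      calc m {ω | ∀ j ∈ F n, f ω j = true} + m {ω | ∀ j ∈ F n, f ω j = false}
          ≤ (2⁻¹ : ENNReal) ^ n + (2⁻¹ : ENNReal) ^ n :=
            add_le_add ((hf _ _).trans h2) ((hf _ _).trans h2)
        _ = 2 * (2⁻¹ : ENNReal) ^ n := by ring
    · have : {ω | n ≤ (F n).card ∧ ∃ b, ∀ j ∈ F n, f ω j = b} = ∅ := by
        ext ω
        simp [hn]
      rw [this]
      simp
  refine ne_top_of_le_ne_top ?_ (ENNReal.tsum_le_tsum hle)
  rw [ENNReal.tsum_mul_left, ENNReal.tsum_geometric]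
  refine ENNReal.mul_ne_top (by norm_num) ?_
  rw [ENNReal.one_sub_inv_two, inv_inv]
  norm_num

/-- decoding a function `ℕ → ℕ` as a sequence of finite sets -/
def dec (h : ℕ → ℕ) (n : ℕ) : Finset ℕ := (Denumerable.eqv (Finset ℕ)).symm (h n)

/-- The functions which infinitely often agree with `g` form a residual set. -/
theorem residual_frequently_eq (g : ℕ → ℕ) :
    {h : ℕ → ℕ | ∃ᶠ n in atTop, h n = g n} ∈ residual (ℕ → ℕ) := by
  have h1 : {h : ℕ → ℕ | ∃ᶠ n in atTop, h n = g n} = ⋂ m : ℕ, {h | ∃ n ≥ m, h n = g n} := by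
    ext h
    simp [frequently_atTop]
  rw [h1]
  refine countable_iInter_mem.2 fun m => ?_
  refine residual_of_dense_open ?_ ?_
  · have : {h : ℕ → ℕ | ∃ n ≥ m, h n = g n} = ⋃ n : ℕ, ⋃ _ : n ≥ m, (fun h : ℕ → ℕ => h n) ⁻¹' {g n} := by
      ext h
      simp
    rw [this]
    exact isOpen_iUnion fun n => isOpen_iUnion fun _ =>
      (isOpen_discrete _).preimage (continuous_apply n)
  · intro h
    refine mem_closure_of_tendsto (f := fun k : ℕ => Function.update h k (g k)) (b := atTop) ?_ ?_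
    · rw [tendsto_pi_nhds]
      intro i
      refine tendsto_const_nhds.congr' ?_
      filter_upwards [eventually_gt_atTop i] with k hk
      exact (Function.update_of_ne (Nat.ne_of_lt hk) _ _).symm
    · filter_upwards [eventually_ge_atTop m] with k hk
      exact ⟨k, hk, Function.update_self _ _ _⟩

/-- A non-meager set captures every infinite set of natural numbers. -/
theorem exists_capture {X : Set (ℕ → ℕ)} (hX : ¬ IsMeagre X) {B : Set ℕ} (hB : B.Infinite) :
    ∃ h ∈ X, ∀ (z : ℕ → Bool) (b : Bool), (∀ j ∈ B, z j = b) → z ∈ Bad (dec h) := by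
  classical
  choose F hF hF2 using fun n : ℕ => hB.exists_subset_card_eq n
  let g : ℕ → ℕ := fun n => Denumerable.eqv (Finset ℕ) (F n)
  have hres := residual_frequently_eq g
  have : ∃ h ∈ X, ∃ᶠ n in atTop, h n = g n := by
    by_contra hcon
    push Not at hcon
    refine hX ?_
    rw [IsMeagre]
    refine mem_of_superset hres ?_
    intro h hh hhX
    exact hh (hcon h hhX)
  obtain ⟨h, hhX, hh⟩ := this
  refine ⟨h, hhX, fun z b hz => ?_⟩
  refine hh.mono fun n hn => ?_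
  have : dec h n = F n := by
    simp [dec, hn, g]
  rw [this, hF2]
  exact ⟨le_rfl, b, fun j hj => hz j (hF n hj)⟩

/-- The strong polarized relation at `#α` and `ω` for two colours. -/
def StrongPolarized (α : Type) : Prop :=
  ∀ c : α → ℕ → Bool, ∃ A : Set α, #A = #α ∧ ∃ B : Set ℕ, B.Infinite ∧
    ∃ i : Bool, ∀ a ∈ A, ∀ n ∈ B, c a n = i

/-- `#α` is a real-valued measurable cardinal. -/
def RealValuedMeasurable (α : Type) : Prop :=
  ℵ₀ < #α ∧ ∃ μ : @Measure α ⊤, @IsProbabilityMeasure α ⊤ μ ∧ (∀ a, μ {a} = 0) ∧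
    ∀ (ι : Type) (A : ι → Set α), #ι < #α → Pairwise (Function.onFun Disjoint A) →
      μ (⋃ i, A i) = ∑' i, μ (A i)

/-- `cov(N)`: the least size of a family of null sets covering Cantor space. -/
noncomputable def covNull : Cardinal.{0} :=
  sInf {c | ∃ F : Set (Set (ℕ → Bool)), (∀ N ∈ F, cantorMeasure N = 0) ∧ ⋃₀ F = Set.univ ∧ #F = c}

/-- `non(M)`: the least size of a non-meager set of reals. -/
noncomputable def nonMeager : Cardinal.{0} :=
  sInf {c | ∃ X : Set (ℕ → ℕ), ¬ IsMeagre X ∧ #X = c}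

theorem exists_notMem_of_lt_covNull {ι : Type} (hι : #ι < covNull) (N : ι → Set (ℕ → Bool))
    (hN : ∀ i, cantorMeasure (N i) = 0) : ∃ z, ∀ i, z ∉ N i := by
  by_contra hcon
  push Not at hcon
  refine absurd hι (not_lt.2 ?_)
  have h1 : covNull ≤ #(range N) := by
    refine csInf_le' ⟨range N, ?_, ?_, rfl⟩
    · rintro _ ⟨i, rfl⟩
      exact hN i
    · refine eq_univ_of_forall fun z => ?_
      obtain ⟨i, hi⟩ := hcon z
      exact ⟨N i, ⟨i, rfl⟩, hi⟩
  exact h1.trans mk_range_le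

theorem exists_nonMeager : ∃ X : Set (ℕ → ℕ), ¬ IsMeagre X ∧ #X = nonMeager := by
  have : {c | ∃ X : Set (ℕ → ℕ), ¬ IsMeagre X ∧ #X = c}.Nonempty :=
    ⟨_, Set.univ, not_isMeagre_of_isOpen isOpen_univ univ_nonempty, rfl⟩
  exact csInf_mem this

theorem nonMeager_le_continuum : nonMeager ≤ 𝔠 := by
  have h : nonMeager ≤ #(Set.univ : Set (ℕ → ℕ)) :=
    csInf_le' ⟨Set.univ, not_isMeagre_of_isOpen isOpen_univ univ_nonempty, rfl⟩
  simpa using h

theorem cantorMeasure_bad (F : ℕ → Finset ℕ) : cantorMeasure (Bad F) = 0 :=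
  measure_bad cantorMeasure (fun z => z) (fun s b => (cantorMeasure_const s b).le) F

/-- **The combinatorial core.** -/
theorem not_strongPolarized_of_chain {α : Type} (X : Set (ℕ → ℕ))
    (hX : ¬ IsMeagre X) (ρ : (ℕ → ℕ) → (#α).ord.ToType)
    (hρ : ∀ t, #{h // h ∈ X ∧ ρ h ≤ t} < covNull) : ¬ StrongPolarized α := by
  intro hSP
  have hz : ∀ t, ∃ z : ℕ → Bool, ∀ h : {h // h ∈ X ∧ ρ h ≤ t}, z ∉ Bad (dec h.1) := fun t =>
    exists_notMem_of_lt_covNull (hρ t) _ fun _ => cantorMeasure_bad _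
  choose z hz using hz
  have hcard : #α = #(#α).ord.ToType := by simp
  obtain ⟨e⟩ := Cardinal.eq.1 hcard
  obtain ⟨A, hA, B, hB, i, hi⟩ := hSP fun a n => z (e a) n
  obtain ⟨h, hhX, hh⟩ := exists_capture hX hB
  have hsub : ∀ a ∈ A, e a < ρ h := by
    intro a ha
    by_contra hlt
    exact hz (e a) ⟨h, hhX, not_lt.1 hlt⟩ (hh _ i fun n hn => hi a ha n hn)
  have h1 : #A ≤ #(Iio (ρ h)) :=
    mk_le_of_injective (f := fun a : A => (⟨e a, hsub a a.2⟩ : Iio (ρ h)))
      fun a b hab => Subtype.ext (e.injective (congrArg Subtype.val hab))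
  have h2 : #(Iio (ρ h)) < #(#α).ord.ToType := mk_Iio_lt _ (by simp)
  rw [hA] at h1
  rw [← hcard] at h2
  exact absurd h1 (not_le.2 h2)

/-- The null ideal of a totally defined `κ`-additive measure is closed under unions of fewer than
`κ` sets. -/
theorem null_iUnion {α : Type} {μ : @Measure α ⊤}
    (hadd : ∀ (ι : Type) (A : ι → Set α), #ι < #α → Pairwise (Function.onFun Disjoint A) →
      μ (⋃ i, A i) = ∑' i, μ (A i))
    (ι : Type) (Z : ι → Set α) (hι : #ι < #α) (hZ : ∀ i, μ (Z i) = 0) : μ (⋃ i, Z i) = 0 := by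
  obtain ⟨r, wo, -⟩ := Cardinal.exists_ord_eq ι
  have hU : (⋃ i, Z i) = ⋃ i, (Z i \ ⋃ j, ⋃ _ : r j i, Z j) := by
    refine Subset.antisymm ?_ (iUnion_mono fun i => sdiff_subset)
    intro a ha
    obtain ⟨i, hi, hmin⟩ := wo.wf.has_min {i | a ∈ Z i} (mem_iUnion.1 ha)
    refine mem_iUnion.2 ⟨i, hi, ?_⟩
    simp only [mem_iUnion, not_exists]
    intro j hj haj
    exact hmin j haj hj
  rw [hU, hadd ι _ hι]
  · refine ENNReal.tsum_eq_zero.2 fun i => ?_
    exact le_antisymm ((measure_mono (μ := μ) sdiff_subset).trans (hZ i).le) bot_le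
  · intro i j hij
    rcases trichotomous_of r i j with h | h | h
    · refine Set.disjoint_left.2 fun a ha hb => hb.2 ?_
      exact mem_iUnion.2 ⟨i, mem_iUnion.2 ⟨h, ha.1⟩⟩
    · exact absurd h hij
    · refine Set.disjoint_left.2 fun a ha hb => ha.2 ?_
      exact mem_iUnion.2 ⟨j, mem_iUnion.2 ⟨h, hb.1⟩⟩

/-- A real-valued measurable cardinal `≤ 𝔠` is at most `cov(N)`. -/
theorem le_covNull {α : Type} (h : RealValuedMeasurable α) (hc : #α ≤ 𝔠) : #α ≤ covNull := by
  obtain ⟨-, μ, hp, h0, hadd⟩ := h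
  obtain ⟨x⟩ : Nonempty (α ↪ ℝ) := by
    rw [← mk_real] at hc
    exact hc
  obtain ⟨f, hf⟩ := exists_coin_map μ h0 x x.injective
  refine le_csInf ?_ ?_
  · refine ⟨_, range fun z : ℕ → Bool => ({z} : Set (ℕ → Bool)), ?_, ?_, rfl⟩
    · rintro _ ⟨z, rfl⟩
      have hle : ∀ n : ℕ, cantorMeasure {z} ≤ (2⁻¹ : ENNReal) ^ n := by
        intro n
        have hsub : ({z} : Set (ℕ → Bool)) ⊆ Set.pi (Finset.range n) fun j => {z j} := by
          rintro w rfl
          simp [Set.mem_pi]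
        refine (measure_mono hsub).trans (le_of_eq ?_)
        unfold cantorMeasure
        rw [Measure.infinitePi_pi _ (fun _ _ => measurableSet_singleton _)]
        simp [coin_singleton]
      have ht : Tendsto (fun n : ℕ => (2⁻¹ : ENNReal) ^ n) atTop (𝓝 0) :=
        ENNReal.tendsto_pow_atTop_nhds_zero_of_lt_one (by norm_num)
      exact le_antisymm (ge_of_tendsto' ht hle) bot_le
    · exact eq_univ_of_forall fun z => mem_sUnion.2 ⟨{z}, ⟨z, rfl⟩, rfl⟩
  · rintro c ⟨F, hF, hcov, rfl⟩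
    by_contra hlt
    rw [not_le] at hlt
    have hnull : ∀ N : F, μ (f ⁻¹' N) = 0 := by
      intro N
      refine Measure.preimage_null_of_map_null (μ := μ) measurable_from_top.aemeasurable ?_
      rw [hf]
      exact hF N N.2
    have h1 := null_iUnion hadd F (fun N => f ⁻¹' N) hlt hnull
    have h2 : (⋃ N : F, f ⁻¹' (N : Set (ℕ → Bool))) = Set.univ := by
      rw [← preimage_iUnion, ← sUnion_eq_iUnion, hcov, preimage_univ]
    rw [h2] at h1
    have h3 : μ Set.univ = 1 := hp.measure_univ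
    rw [h3] at h1
    exact one_ne_zero h1

theorem mk_Iic_lt {c : Cardinal.{0}} (hc : ℵ₀ ≤ c) (t : c.ord.ToType) : #(Iic t) < c := by
  have h1 : #(Iio t) < c := by
    have := mk_Iio_lt t (by simp)
    simpa using this
  have h2 : Iic t = insert t (Iio t) := by
    ext s
    simp [le_iff_eq_or_lt]
  rw [h2]
  refine (mk_insert_le).trans_lt ?_
  exact add_lt_of_lt hc h1 (lt_of_lt_of_le one_lt_aleph0 hc)

/-- If `κ ≤ 𝔠` is real-valued measurable and some non-meager set has size at most `κ`, then the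
strong polarized relation fails at `κ`. -/
theorem not_strongPolarized_of_nonMeager_le {α : Type} (h : RealValuedMeasurable α) (hc : #α ≤ 𝔠)
    (hM : nonMeager ≤ #α) : ¬ StrongPolarized α := by
  classical
  obtain ⟨X, hX, hXc⟩ := exists_nonMeager
  have hcard : #α = #(#α).ord.ToType := by simp
  have hle : #X ≤ #(#α).ord.ToType := by rw [hXc, ← hcard]; exact hM
  obtain ⟨e⟩ := (Cardinal.le_def _ _).1 hle
  have hne : Nonempty (#α).ord.ToType := by
    rw [← mk_ne_zero_iff, ← hcard]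
    exact (lt_of_le_of_lt bot_le h.1).ne'
  let ρ : (ℕ → ℕ) → (#α).ord.ToType := fun g => if hg : g ∈ X then e ⟨g, hg⟩ else hne.some
  refine not_strongPolarized_of_chain X hX ρ fun t => ?_
  refine lt_of_lt_of_le ?_ (le_covNull h hc)
  refine lt_of_le_of_lt ?_ (mk_Iic_lt h.1.le t)
  refine mk_le_of_injective (f := fun g => (⟨ρ g.1, g.2.2⟩ : Iic t)) ?_
  rintro ⟨g, hg, hgt⟩ ⟨g', hg', hgt'⟩ heq
  have : ρ g = ρ g' := congrArg Subtype.val heq
  simp only [ρ, dif_pos hg, dif_pos hg'] at this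
  have := congrArg Subtype.val (e.injective this)
  exact Subtype.ext this

/-- If `cov(N) = non(M)` has cofinality `κ`, then the strong polarized relation fails at `κ`. -/
theorem not_strongPolarized_of_cof {α : Type} (hα : ℵ₀ ≤ #α) (hM : covNull = nonMeager)
    (hcof : nonMeager.ord.cof = #α) : ¬ StrongPolarized α := by
  classical
  obtain ⟨X, hX, hXc⟩ := exists_nonMeager
  -- a cofinal set of size `#α`
  obtain ⟨S, hS, hSc⟩ := Order.exists_cof_eq (α := nonMeager.ord.ToType)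
  rw [Ordinal.cof_toType, hcof] at hSc
  have hcardα : #α = #(#α).ord.ToType := by simp
  obtain ⟨g⟩ := Cardinal.eq.1 (hSc.trans hcardα).symm
  have hXc' : #X = #(nonMeager.ord.ToType) := by rw [hXc]; simp
  obtain ⟨e⟩ := Cardinal.eq.1 hXc'
  have hex : ∀ h : X, ∃ t : (#α).ord.ToType, e h ≤ g t := by
    intro h
    obtain ⟨s, hs, hle⟩ := hS (e h)
    exact ⟨g.symm ⟨s, hs⟩, by simpa using hle⟩
  choose r hr using hex
  have hne : Nonempty (#α).ord.ToType := by
    rw [← mk_ne_zero_iff, ← hcardα]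
    exact (lt_of_lt_of_le aleph0_pos hα).ne'
  let ρ : (ℕ → ℕ) → (#α).ord.ToType := fun h => if hh : h ∈ X then r ⟨h, hh⟩ else hne.some
  refine not_strongPolarized_of_chain X hX ρ fun t => ?_
  -- the values `g s`, `s ≤ t`, are bounded
  have hb : ¬ IsCofinal ((fun s : (#α).ord.ToType => ((g s : S) : nonMeager.ord.ToType)) '' Iic t) := by
    intro hcf
    have h1 := Order.cof_le hcf
    rw [Ordinal.cof_toType, hcof] at h1
    exact absurd (h1.trans mk_image_le) (not_le.2 (mk_Iic_lt hα t))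
  have hb' : ∃ u : nonMeager.ord.ToType, ∀ s ≤ t, ((g s : S) : nonMeager.ord.ToType) < u := by
    by_contra hcon
    push Not at hcon
    refine hb fun u => ?_
    obtain ⟨s, hs, hle⟩ := hcon u
    exact ⟨_, ⟨s, hs, rfl⟩, hle⟩
  obtain ⟨u, hu⟩ := hb'
  rw [hM]
  refine lt_of_le_of_lt ?_ (mk_Iio_lt u (by simp) |>.trans_eq (mk_ord_toType _))
  have hmem : ∀ h : {h // h ∈ X ∧ ρ h ≤ t}, e ⟨h.1, h.2.1⟩ < u := by
    rintro ⟨h, hh, hle⟩
    have h1 : ρ h = r ⟨h, hh⟩ := dif_pos hh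
    rw [h1] at hle
    exact (hr ⟨h, hh⟩).trans_lt (hu _ hle)
  refine mk_le_of_injective
    (f := fun h : {h // h ∈ X ∧ ρ h ≤ t} => (⟨e ⟨h.1, h.2.1⟩, hmem h⟩ : Iio u)) ?_
  intro h h' heq
  have h1 : e ⟨h.1, h.2.1⟩ = e ⟨h'.1, h'.2.1⟩ := congrArg Subtype.val heq
  have h2 := congrArg Subtype.val (e.injective h1)
  exact Subtype.ext h2

end Lib_helper75.RVM
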