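import Pool.Agent.Lib_helper75.RVM.Halving
/-! # A measurable fair coin-tossing map for a measure whose sets can be halved -/

open MeasureTheory Set Filter Topology

namespace Lib_helper75.RVM

variable {Ω : Type*} [MeasurableSpace Ω]

/-- Every measurable set contains a measurable set of half its measure. -/
def CanHalve (m : Measure Ω) : Prop :=
  ∀ A : Set Ω, MeasurableSet A → ∃ A' ⊆ A, MeasurableSet A' ∧ m A' = m A / 2

/-- A finite measure without point masses on a standard Borel space has the halving property. -/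
theorem canHalve_of_noAtoms [StandardBorelSpace Ω] (m : Measure Ω) [IsFiniteMeasure m]
    (hm : ∀ z, m {z} = 0) : CanHalve m := by
  intro A hA
  let x : Ω → ℝ := embeddingReal Ω
  have hx : MeasurableEmbedding x := measurableEmbedding_embeddingReal Ω
  let ρ : Measure ℝ := (m.restrict A).map x
  have : IsFiniteMeasure ρ := by
    refine ⟨?_⟩
    rw [Measure.map_apply hx.measurable MeasurableSet.univ]
    exact measure_lt_top _ _
  have hρ : ∀ t, ρ {t} = 0 := by
    intro t
    rw [Measure.map_apply hx.measurable (measurableSet_singleton t)]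
    refine le_antisymm ((Measure.restrict_apply_le _ _).trans ?_) bot_le
    have hs : (x ⁻¹' {t}).Subsingleton := by
      intro a ha b hb
      exact hx.injective (by rw [ha, hb])
    rcases hs.eq_empty_or_singleton with h | ⟨a, h⟩
    · rw [h]; simp
    · rw [h, hm]
  obtain ⟨S, hS, hSh⟩ := exists_half_real ρ hρ
  refine ⟨x ⁻¹' S ∩ A, inter_subset_right, (hx.measurable hS).inter hA, ?_⟩
  rw [Measure.map_apply hx.measurable hS, Measure.map_apply hx.measurable MeasurableSet.univ,
    Measure.restrict_apply (hx.measurable hS), preimage_univ,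
    Measure.restrict_apply MeasurableSet.univ, univ_inter] at hSh
  exact hSh

/-- Simultaneous halving of the fibres of a measurable map into a countable type. -/
theorem exists_half_fibres' (m : Measure Ω) (hm : CanHalve m) {L : Type*} [Countable L]
    (g : Ω → L) (hg : ∀ T : Set L, MeasurableSet (g ⁻¹' T)) :
    ∃ D : Set Ω, MeasurableSet D ∧ ∀ T : Set L, m (D ∩ g ⁻¹' T) = m (g ⁻¹' T) / 2 := by
  choose E hE hEm hE2 using fun s : L => hm (g ⁻¹' {s}) (hg _)
  refine ⟨⋃ s, E s, MeasurableSet.iUnion hEm, fun T => ?_⟩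
  have h1 : (⋃ s, E s) ∩ g ⁻¹' T = ⋃ s : T, E s := by
    ext a
    simp only [mem_inter_iff, mem_iUnion, mem_preimage]
    constructor
    · rintro ⟨⟨s, hs⟩, ha⟩
      have : g a = s := hE s hs
      exact ⟨⟨s, this ▸ ha⟩, hs⟩
    · rintro ⟨⟨s, hsT⟩, hs⟩
      have : g a = s := hE s hs
      exact ⟨⟨s, hs⟩, this ▸ hsT⟩
  have h2 : g ⁻¹' T = ⋃ s : T, g ⁻¹' {(s : L)} := by
    ext a
    simp
  have hdisj : Pairwise (Function.onFun Disjoint fun s : T => g ⁻¹' {(s : L)}) := by
    intro s t hst
    refine Set.disjoint_left.2 fun a ha hb => hst (Subtype.ext ?_)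
    rw [mem_preimage, mem_singleton_iff] at ha hb
    exact ha.symm.trans hb
  have hdisj2 : Pairwise (Function.onFun Disjoint fun s : T => E (s : L)) := fun s t hst =>
    (hdisj hst).mono (hE _) (hE _)
  rw [h1, measure_iUnion hdisj2 (fun s => hEm _)]
  conv_rhs => rw [h2, measure_iUnion hdisj (fun s => hg _)]
  simp_rw [hE2, div_eq_mul_inv]
  rw [ENNReal.tsum_mul_right]

/-- A measurable fair coin-tossing map on a probability space whose sets can be halved. -/
theorem exists_coin_map' (m : Measure Ω) [IsProbabilityMeasure m] (hm : CanHalve m) :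
    ∃ f : Ω → ℕ → Bool, Measurable f ∧ m.map f = cantorMeasure := by
  classical
  let G : Type _ := {g : Ω → List Bool // ∀ T : Set (List Bool), MeasurableSet (g ⁻¹' T)}
  choose D hDm hD using fun g : G => exists_half_fibres' m hm g.1 g.2
  have hstep : ∀ g : G, ∀ T : Set (List Bool),
      MeasurableSet ((fun a => decide (a ∈ D g) :: g.1 a) ⁻¹' T) := by
    intro g T
    have h1 : (fun a => decide (a ∈ D g) :: g.1 a) ⁻¹' T
        = (D g ∩ g.1 ⁻¹' {l | true :: l ∈ T}) ∪ ((D g)ᶜ ∩ g.1 ⁻¹' {l | false :: l ∈ T}) := by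
      ext a
      by_cases ha : a ∈ D g <;> simp [ha]
    rw [h1]
    exact ((hDm g).inter (g.2 _)).union ((hDm g).compl.inter (g.2 _))
  let g : ℕ → G := fun k => Nat.rec ⟨fun _ => [], fun T => measurableSet_preimage
    measurable_const MeasurableSpace.measurableSet_top⟩
    (fun _ gk => ⟨fun a => decide (a ∈ D gk) :: gk.1 a, hstep gk⟩) k
  have hg : ∀ k a, (g (k + 1)).1 a = decide (a ∈ D (g k)) :: (g k).1 a := fun k a => rfl
  let f : Ω → ℕ → Bool := fun a k => decide (a ∈ D (g k))
  have hfm : Measurable f := by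
    refine measurable_pi_lambda _ fun k => ?_
    refine measurable_to_bool ?_
    have : (fun a => f a k) ⁻¹' {true} = D (g k) := by
      ext a
      simp [f]
    rw [this]
    exact hDm (g k)
  have hfk : ∀ k (S : Set Bool), MeasurableSet {a | f a k ∈ S} := fun k S =>
    (measurable_pi_iff.1 hfm k) (MeasurableSet.of_discrete)
  have hdet : ∀ k a a', (g k).1 a = (g k).1 a' → ∀ j < k, f a j = f a' j := by
    intro k
    induction k with
    | zero => intro a a' _ j hj; exact absurd hj (Nat.not_lt_zero _)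
    | succ k ih =>
      intro a a' h j hj
      rw [hg, hg, List.cons.injEq] at h
      rcases Nat.lt_succ_iff_lt_or_eq.1 hj with hlt | rfl
      · exact ih a a' h.2 j hlt
      · exact h.1
  have hhalf1 : ∀ k (T : Set (List Bool)) (b : Bool),
      m ({a | f a k = b} ∩ (g k).1 ⁻¹' T) = 2⁻¹ * m ((g k).1 ⁻¹' T) := by
    intro k T b
    have ht : m (D (g k) ∩ (g k).1 ⁻¹' T) = 2⁻¹ * m ((g k).1 ⁻¹' T) := by
      rw [hD, div_eq_mul_inv, mul_comm]
    cases b with
    | true =>
      have : {a | f a k = true} = D (g k) := by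
        ext a
        simp [f]
      rw [this, ht]
    | false =>
      have h1 : {a | f a k = false} ∩ (g k).1 ⁻¹' T
          = (g k).1 ⁻¹' T \ (D (g k) ∩ (g k).1 ⁻¹' T) := by
        ext a
        simp [f]
        tauto
      rw [h1, measure_sdiff inter_subset_right
        ((hDm _).inter ((g k).2 T)).nullMeasurableSet (measure_ne_top _ _), ht]
      have hfin : m ((g k).1 ⁻¹' T) ≠ ⊤ := measure_ne_top _ _
      have h2 : (m ((g k).1 ⁻¹' T)) = 2⁻¹ * m ((g k).1 ⁻¹' T) + 2⁻¹ * m ((g k).1 ⁻¹' T) := by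
        rw [← add_mul, ENNReal.inv_two_add_inv_two, one_mul]
      refine ENNReal.sub_eq_of_eq_add (ENNReal.mul_ne_top (by norm_num) hfin) h2
  have hhalf : ∀ k (T : Set (List Bool)) (S : Set Bool),
      m ({a | f a k ∈ S} ∩ (g k).1 ⁻¹' T) = coin S * m ((g k).1 ⁻¹' T) := by
    intro k T S
    have h1 : {a | f a k ∈ S} ∩ (g k).1 ⁻¹' T
        = ⋃ b : S, ({a | f a k = b} ∩ (g k).1 ⁻¹' T) := by
      ext a
      simp only [mem_inter_iff, mem_ofPred_eq, mem_preimage, mem_iUnion]
      constructor
      · rintro ⟨h, h'⟩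
        exact ⟨⟨_, h⟩, rfl, h'⟩
      · rintro ⟨⟨b, hb⟩, h, h'⟩
        exact ⟨by rw [h]; exact hb, h'⟩
    have h2 : Pairwise (Function.onFun Disjoint
        fun b : S => ({a | f a k = b} ∩ (g k).1 ⁻¹' T)) := by
      intro b b' hbb
      refine Set.disjoint_left.2 fun a ha ha' => hbb (Subtype.ext ?_)
      exact ha.1.symm.trans ha'.1
    rw [h1, measure_iUnion h2 (fun b => (hfk k {(b : Bool)}).inter ((g k).2 T))]
    simp_rw [hhalf1]
    rw [ENNReal.tsum_mul_right]
    congr 1
    have h3 : coin S = coin (⋃ b : S, {(b : Bool)}) := by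
      congr 1
      ext b
      simp
    rw [h3, measure_iUnion ?_ (fun b => measurableSet_singleton _)]
    · simp_rw [coin_singleton]
    · intro b b' hbb
      refine Set.disjoint_singleton.2 fun h => hbb (Subtype.ext h)
  refine ⟨f, hfm, ?_⟩
  unfold cantorMeasure
  refine Measure.eq_infinitePi _ fun s t ht => ?_
  rw [Measure.map_apply hfm
    (MeasurableSet.pi s.countable_toSet fun i _ => ht i)]
  have hpre : f ⁻¹' (Set.pi s t) = {a | ∀ j ∈ s, f a j ∈ t j} := by
    ext a
    simp [Set.mem_pi]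
  rw [hpre]
  clear hpre
  induction s using Finset.induction_on_max with
  | empty => simp
  | insert k s hs ih =>
    have hk : k ∉ s := fun h => lt_irrefl _ (hs k h)
    have h1 : {a | ∀ j ∈ insert k s, f a j ∈ t j}
        = {a | f a k ∈ t k} ∩ (g k).1 ⁻¹' ((g k).1 '' {a | ∀ j ∈ s, f a j ∈ t j}) := by
      ext a
      simp only [Finset.mem_insert, forall_eq_or_imp, mem_ofPred_eq, mem_inter_iff, mem_preimage,
        mem_image]
      refine and_congr_right fun _ => ⟨fun h => ⟨a, h, rfl⟩, ?_⟩
      rintro ⟨a', ha', hga⟩ j hj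
      rw [← hdet k a' a hga j (hs j hj)]
      exact ha' j hj
    have h2 : (g k).1 ⁻¹' ((g k).1 '' {a | ∀ j ∈ s, f a j ∈ t j})
        = {a | ∀ j ∈ s, f a j ∈ t j} := by
      ext a
      simp only [mem_ofPred_eq, mem_preimage, mem_image]
      refine ⟨?_, fun h => ⟨a, h, rfl⟩⟩
      rintro ⟨a', ha', hga⟩ j hj
      rw [← hdet k a' a hga j (hs j hj)]
      exact ha' j hj
    rw [h1, hhalf, h2, ih, Finset.prod_insert hk]

end Lib_helper75.RVM
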