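import Pool.Agent.Lib_helper75.RVM.Basic
/-! # Catching families of finite sets and the strong polarized relation -/

open MeasureTheory Set Filter Topology Cardinal

namespace Lib_helper75.RVM

/-- The product measure on `κ`-sequences of points of Cantor space. -/
noncomputable def prodMeasure (α : Type) : Measure (α → ℕ → Bool) :=
  Measure.infinitePi fun _ => cantorMeasure

instance (α : Type) : IsProbabilityMeasure (prodMeasure α) := by
  unfold prodMeasure
  infer_instance

/-- The least size of a family of null sets covering the space of `α`-sequences. -/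
noncomputable def covProd (α : Type) : Cardinal.{0} :=
  sInf {c | ∃ F : Set (Set (α → ℕ → Bool)), (∀ N ∈ F, prodMeasure α N = 0) ∧
    ⋃₀ F = Set.univ ∧ #F = c}

theorem exists_notMem_of_lt_covProd {α ι : Type} (hι : #ι < covProd α)
    (N : ι → Set (α → ℕ → Bool)) (hN : ∀ i, prodMeasure α (N i) = 0) : ∃ z, ∀ i, z ∉ N i := by
  by_contra hcon
  push Not at hcon
  refine absurd hι (not_lt.2 ?_)
  have h1 : covProd α ≤ #(range N) := by
    refine csInf_le' ⟨range N, ?_, ?_, rfl⟩
    · rintro _ ⟨i, rfl⟩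
      exact hN i
    · refine eq_univ_of_forall fun z => ?_
      obtain ⟨i, hi⟩ := hcon z
      exact ⟨N i, ⟨i, rfl⟩, hi⟩
  exact h1.trans mk_range_le

variable {α : Type}

/-- The measure of the set of sequences constant on a finite rectangle. -/
theorem prodMeasure_const (T : Finset α) (F : Finset ℕ) (i : Bool) :
    prodMeasure α {x | ∀ a ∈ T, ∀ n ∈ F, x a n = i} = (2⁻¹ : ENNReal) ^ (F.card * T.card) := by
  have hm : MeasurableSet {z : ℕ → Bool | ∀ n ∈ F, z n = i} := by
    have : {z : ℕ → Bool | ∀ n ∈ F, z n = i} = Set.pi F fun _ => {i} := by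
      ext z
      simp [Set.mem_pi]
    rw [this]
    exact MeasurableSet.pi F.countable_toSet fun _ _ => measurableSet_singleton _
  have h : {x : α → ℕ → Bool | ∀ a ∈ T, ∀ n ∈ F, x a n = i}
      = Set.pi T fun _ => {z : ℕ → Bool | ∀ n ∈ F, z n = i} := by
    ext z
    simp [Set.mem_pi]
  rw [h]
  unfold prodMeasure
  rw [Measure.infinitePi_pi _ (fun _ _ => hm)]
  simp only [cantorMeasure_const, Finset.prod_const]
  rw [← pow_mul]

open Classical in
/-- The number of the elements of `S` whose colour is `i` on all of `F`. -/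
noncomputable def cnt (x : α → ℕ → Bool) (S : Finset α) (F : Finset ℕ) (i : Bool) : ℕ :=
  (S.filter fun a => ∀ n ∈ F, x a n = i).card

/-- If `1 ≤ m` and `2 m ≤ #F`, then the measure of the set of the sequences for which at least the
`m`-th part of `S` has colour `i` on `F` is at most `2 ^ (- k)` for `2 m k ≤ #S * #F`. -/
theorem measure_cnt (S : Finset α) (F : Finset ℕ) (i : Bool) (m k : ℕ) (hm : 1 ≤ m)
    (hF : 2 * m ≤ F.card) (hk : 2 * m * k ≤ S.card * F.card) :
    prodMeasure α {x | S.card ≤ m * cnt x S F i} ≤ (2⁻¹ : ENNReal) ^ k := by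
  classical
  have hsub : {x : α → ℕ → Bool | S.card ≤ m * cnt x S F i} ⊆
      ⋃ T ∈ S.powerset.filter (fun T => S.card ≤ m * T.card),
        {x | ∀ a ∈ T, ∀ n ∈ F, x a n = i} := by
    intro x hx
    refine mem_iUnion₂.2 ⟨S.filter fun a => ∀ n ∈ F, x a n = i, ?_, ?_⟩
    · refine Finset.mem_filter.2 ⟨Finset.mem_powerset.2 (Finset.filter_subset _ _), ?_⟩
      exact hx
    · intro a ha
      exact (Finset.mem_filter.1 ha).2
  refine (measure_mono hsub).trans ((measure_biUnion_finset_le _ _).trans ?_)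
  have hle : ∀ T ∈ S.powerset.filter (fun T => S.card ≤ m * T.card),
      prodMeasure α {x | ∀ a ∈ T, ∀ n ∈ F, x a n = i} ≤ (2⁻¹ : ENNReal) ^ (S.card + k) := by
    intro T hT
    have hT2 : S.card ≤ m * T.card := (Finset.mem_filter.1 hT).2
    rw [prodMeasure_const]
    refine pow_le_pow_right_of_le_one' (by norm_num) ?_
    -- `m (#S + k) ≤ m (#F * #T)`
    refine Nat.le_of_mul_le_mul_left ?_ (show 0 < 2 * m by omega)
    have h1 : 2 * m * S.card ≤ F.card * S.card := Nat.mul_le_mul_right _ hF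
    calc 2 * m * (S.card + k) = 2 * m * S.card + 2 * m * k := by ring
      _ ≤ F.card * S.card + S.card * F.card := add_le_add h1 hk
      _ = 2 * (F.card * S.card) := by ring
      _ ≤ 2 * (F.card * (m * T.card)) := by gcongr
      _ = 2 * m * (F.card * T.card) := by ring
  refine (Finset.sum_le_sum hle).trans ?_
  rw [Finset.sum_const, nsmul_eq_mul]
  have hc : ((S.powerset.filter (fun T => S.card ≤ m * T.card)).card : ENNReal)
      ≤ 2 ^ S.card := by
    have h1 := Finset.card_filter_le S.powerset (fun T => S.card ≤ m * T.card)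
    rw [Finset.card_powerset] at h1
    exact_mod_cast h1
  calc ((S.powerset.filter (fun T => S.card ≤ m * T.card)).card : ENNReal)
        * (2⁻¹ : ENNReal) ^ (S.card + k)
      ≤ 2 ^ S.card * (2⁻¹ : ENNReal) ^ (S.card + k) := by gcongr
    _ = (2⁻¹ : ENNReal) ^ k := by
        rw [pow_add, ← mul_assoc, ← mul_pow, ENNReal.mul_inv_cancel (by norm_num)
          (by norm_num), one_pow, one_mul]

theorem tsum_geom (m : ℕ) (hm : 1 ≤ m) : ∑' k : ℕ, (2⁻¹ : ENNReal) ^ (k / (2 * m)) ≠ ⊤ := by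
  have hpos : 0 < 2 * m := by omega
  let e : ℕ ≃ ℕ × Fin (2 * m) := by
    haveI : NeZero (2 * m) := ⟨hpos.ne'⟩
    exact Nat.divModEquiv (2 * m)
  have h1 : ∑' k : ℕ, (2⁻¹ : ENNReal) ^ (k / (2 * m))
      = ∑' p : ℕ × Fin (2 * m), (2⁻¹ : ENNReal) ^ p.1 := by
    rw [← e.tsum_eq (fun p : ℕ × Fin (2 * m) => (2⁻¹ : ENNReal) ^ p.1)]
    rfl
  rw [h1, ENNReal.tsum_prod (f := fun (k : ℕ) (_ : Fin (2 * m)) => (2⁻¹ : ENNReal) ^ k)]
  simp only [tsum_fintype, Finset.sum_const, Finset.card_univ, Fintype.card_fin, nsmul_eq_mul]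
  rw [ENNReal.tsum_mul_left, ENNReal.tsum_geometric, ENNReal.one_sub_inv_two, inv_inv]
  exact ENNReal.mul_ne_top (ENNReal.natCast_ne_top _) (by norm_num)

/-- The exceptional set of a sequence of finite rectangles. -/
def Exc (s : ℕ → Finset α × Finset ℕ) : Set (α → ℕ → Bool) :=
  {x | ∃ (i : Bool) (m : ℕ), 1 ≤ m ∧ ∃ᶠ k in atTop, 2 * m ≤ (s k).2.card ∧
    (s k).1.card ≤ m * cnt x (s k).1 (s k).2 i}

theorem measure_exc (s : ℕ → Finset α × Finset ℕ)
    (hs : ∀ k, k ≤ (s k).1.card * (s k).2.card) : prodMeasure α (Exc s) = 0 := by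
  have h1 : Exc s ⊆ ⋃ p : Bool × ℕ,
      {x | 1 ≤ p.2 ∧ ∃ᶠ k in atTop, 2 * p.2 ≤ (s k).2.card ∧
        (s k).1.card ≤ p.2 * cnt x (s k).1 (s k).2 p.1} := by
    rintro x ⟨i, m, hm, h⟩
    exact mem_iUnion.2 ⟨(i, m), hm, h⟩
  refine measure_mono_null h1 (measure_iUnion_null fun p => ?_)
  obtain ⟨i, m⟩ := p
  by_cases hm : 1 ≤ m
  · refine measure_mono_null (fun x hx => hx.2) ?_
    refine measure_setOfPred_frequently_eq_zero ?_
    have hle : ∀ k, prodMeasure α {x | 2 * m ≤ (s k).2.card ∧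
        (s k).1.card ≤ m * cnt x (s k).1 (s k).2 i} ≤ (2⁻¹ : ENNReal) ^ (k / (2 * m)) := by
      intro k
      by_cases hF : 2 * m ≤ (s k).2.card
      · refine (measure_mono fun x hx => hx.2).trans
          (measure_cnt (s k).1 (s k).2 i m (k / (2 * m)) hm hF ?_)
        exact (Nat.mul_div_le k (2 * m)).trans (hs k)
      · have : {x : α → ℕ → Bool | 2 * m ≤ (s k).2.card ∧
            (s k).1.card ≤ m * cnt x (s k).1 (s k).2 i} = ∅ := by
          ext x
          simp [hF]
        rw [this]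
        simp
    exact ne_top_of_le_ne_top (tsum_geom m hm) (ENNReal.tsum_le_tsum hle)
  · have : {x : α → ℕ → Bool | 1 ≤ m ∧ ∃ᶠ k in atTop, 2 * m ≤ (s k).2.card ∧
        (s k).1.card ≤ m * cnt x (s k).1 (s k).2 i} = ∅ := by
      ext x
      simp [hm]
    change prodMeasure α {x : α → ℕ → Bool | 1 ≤ m ∧ ∃ᶠ k in atTop, 2 * m ≤ (s k).2.card ∧
        (s k).1.card ≤ m * cnt x (s k).1 (s k).2 i} = 0
    rw [this]
    simp

/-- **Catching families.** -/
theorem exists_colouring (ι : Type) (hι : #ι < covProd α) (s : ι → ℕ → Finset α × Finset ℕ)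
    (hs : ∀ j k, k ≤ (s j k).1.card * (s j k).2.card) :
    ∃ c : α → ℕ → Bool, ∀ (X : Set α) (B : Set ℕ) (i : Bool), (∀ a ∈ X, ∀ n ∈ B, c a n = i) →
      ∀ j (m : ℕ), 1 ≤ m → ∀ᶠ k in atTop, ((s j k).2 : Set ℕ) ⊆ B → 2 * m ≤ (s j k).2.card →
        ∀ T : Finset α, T ⊆ (s j k).1 → (T : Set α) ⊆ X → m * T.card < (s j k).1.card := by
  classical
  obtain ⟨c, hc⟩ := exists_notMem_of_lt_covProd hι (fun j => Exc (s j))
    fun j => measure_exc (s j) (hs j)
  refine ⟨c, fun X B i hX j m hm => ?_⟩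
  have h1 : ¬ ∃ᶠ k in atTop, 2 * m ≤ (s j k).2.card ∧
      (s j k).1.card ≤ m * cnt c (s j k).1 (s j k).2 i := fun h => hc j ⟨i, m, hm, h⟩
  rw [not_frequently] at h1
  filter_upwards [h1] with k hk hkB hkm T hT hTX
  have hk' := fun h => hk ⟨hkm, h⟩
  rw [imp_false, not_le] at hk'
  refine lt_of_le_of_lt (Nat.mul_le_mul_left _ ?_) hk'
  refine Finset.card_le_card fun a ha => Finset.mem_filter.2 ⟨hT ha, fun n hn => ?_⟩
  exact hX a (hTX ha) n (hkB hn)

theorem prodMeasure_singleton [Nonempty α] (x : α → ℕ → Bool) : prodMeasure α {x} = 0 := by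
  classical
  obtain ⟨a⟩ := ‹Nonempty α›
  have hle : ∀ k : ℕ, prodMeasure α {x} ≤ (2⁻¹ : ENNReal) ^ k := by
    intro k
    have hsub : ({x} : Set (α → ℕ → Bool)) ⊆ Set.pi ({a} : Finset α)
        fun _ => Set.pi (Finset.range k) fun n => {x a n} := by
      rintro w rfl
      simp [Set.mem_pi]
    have hm : MeasurableSet (Set.pi (Finset.range k : Set ℕ) fun n => ({x a n} : Set Bool)) :=
      MeasurableSet.pi (Finset.range k).countable_toSet fun _ _ => measurableSet_singleton _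
    refine (measure_mono hsub).trans (le_of_eq ?_)
    unfold prodMeasure
    rw [Measure.infinitePi_pi _ (fun _ _ => hm)]
    simp only [Finset.prod_singleton]
    unfold cantorMeasure
    rw [Measure.infinitePi_pi _ (fun _ _ => measurableSet_singleton _)]
    simp [coin_singleton]
  have ht : Tendsto (fun n : ℕ => (2⁻¹ : ENNReal) ^ n) atTop (𝓝 0) :=
    ENNReal.tendsto_pow_atTop_nhds_zero_of_lt_one (by norm_num)
  exact le_antisymm (ge_of_tendsto' ht hle) bot_le

theorem aleph0_lt_covProd [Nonempty α] : ℵ₀ < covProd α := by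
  by_contra hcon
  rw [not_lt] at hcon
  have hne : {c | ∃ F : Set (Set (α → ℕ → Bool)), (∀ N ∈ F, prodMeasure α N = 0) ∧
      ⋃₀ F = Set.univ ∧ #F = c}.Nonempty := by
    refine ⟨_, range fun z : α → ℕ → Bool => ({z} : Set (α → ℕ → Bool)), ?_, ?_, rfl⟩
    · rintro _ ⟨z, rfl⟩
      exact prodMeasure_singleton z
    · exact eq_univ_of_forall fun z => mem_sUnion.2 ⟨{z}, ⟨z, rfl⟩, rfl⟩
  obtain ⟨F, hF, hcov, hFc⟩ := csInf_mem hne
  have hFc' : #F = covProd α := hFc
  have hcount : F.Countable := le_aleph0_iff_set_countable.1 (hFc'.trans_le hcon)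
  have h0 : prodMeasure α (⋃₀ F) = 0 := (measure_sUnion_null_iff hcount).2 hF
  rw [hcov, measure_univ] at h0
  exact one_ne_zero h0

/-- The version for sequences of finite sets. -/
theorem exists_density_colouring [Nonempty α] (ι : Type) (hι : #ι < covProd α)
    (s : ι → ℕ → Finset α) (hs : ∀ j k, k ≤ (s j k).card) :
    ∃ c : α → ℕ → Bool, ∀ (X : Set α) (B : Set ℕ) (i : Bool), B.Infinite →
      (∀ a ∈ X, ∀ n ∈ B, c a n = i) → ∀ j (m : ℕ), ∀ᶠ k in atTop,
        ∀ T : Finset α, T ⊆ s j k → (T : Set α) ⊆ X → m * T.card < (s j k).card := by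
  classical
  let J := ι × {F : Finset ℕ // F.Nonempty}
  have hJ : #J < covProd α := by
    have h1 : #J = #ι * #{F : Finset ℕ // F.Nonempty} := by
      simp [J]
    have h2 : #{F : Finset ℕ // F.Nonempty} ≤ ℵ₀ := mk_le_aleph0
    rw [h1]
    exact mul_lt_of_lt aleph0_lt_covProd.le hι (h2.trans_lt aleph0_lt_covProd)
  obtain ⟨c, hc⟩ := exists_colouring J hJ (fun p k => (s p.1 k, p.2.1)) (by
    rintro ⟨j, F, hF⟩ k
    have h1 : 1 ≤ F.card := hF.card_pos
    calc k ≤ (s j k).card := hs j k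
      _ = (s j k).card * 1 := (mul_one _).symm
      _ ≤ (s j k).card * F.card := Nat.mul_le_mul_left _ h1)
  refine ⟨c, fun X B i hB hX j m => ?_⟩
  obtain ⟨F, hF, hFc⟩ := hB.exists_subset_card_eq (2 * (m + 1))
  have hFne : F.Nonempty := Finset.card_pos.1 (by omega)
  filter_upwards [hc X B i hX (j, ⟨F, hFne⟩) (m + 1) (by omega)] with k hk T hT hTX
  have h1 := hk hF hFc.ge T hT hTX
  refine lt_of_le_of_lt (Nat.mul_le_mul_right _ (Nat.le_succ m)) h1

/-- A bijection carries the strong polarized relation to subsets of full size. -/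
theorem strongPolarized_on (hSP : StrongPolarized α) {A : Set α} (hA : #A = #α)
    (c : α → ℕ → Bool) : ∃ X ⊆ A, #X = #α ∧ ∃ B : Set ℕ, B.Infinite ∧ ∃ i : Bool,
      ∀ a ∈ X, ∀ n ∈ B, c a n = i := by
  obtain ⟨e⟩ := Cardinal.eq.1 hA.symm
  obtain ⟨Y, hY, B, hB, i, hi⟩ := hSP fun a => c (e a)
  have hinj : Function.Injective fun a : α => (e a : α) :=
    fun a b hab => e.injective (Subtype.ext hab)
  refine ⟨(fun a : α => (e a : α)) '' Y, ?_, ?_, B, hB, i, ?_⟩
  · rintro _ ⟨a, -, rfl⟩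
    exact (e a).2
  · rw [mk_image_eq hinj, hY]
  · rintro _ ⟨a, ha, rfl⟩ n hn
    exact hi a ha n hn

end Lib_helper75.RVM
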