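import Mathlib
/-! # Halving sets for total atomless measures, and a fair coin-tossing map -/

open MeasureTheory Set Filter Topology

namespace Lib_helper75.RVM

/-- A finite measure on `ℝ` without point masses has a continuous distribution function. -/
theorem continuous_cdf' (ρ : Measure ℝ) [IsFiniteMeasure ρ] (h : ∀ t : ℝ, ρ {t} = 0) :
    Continuous fun t : ℝ => ρ.real (Iic t) := by
  have key : (fun t : ℝ => ρ.real (Iic t)) =
      fun t => ∫ z, (Iic t).indicator (fun _ => (1 : ℝ)) z ∂ρ := by
    funext t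
    rw [integral_indicator measurableSet_Iic]
    simp
  rw [key, continuous_iff_continuousAt]
  intro t₀
  refine continuousAt_of_dominated (bound := fun _ => (1 : ℝ)) ?_ ?_ (integrable_const _) ?_
  · exact Eventually.of_forall fun t =>
      (measurable_const.indicator measurableSet_Iic).aestronglyMeasurable
  · refine Eventually.of_forall fun t => Eventually.of_forall fun z => ?_
    by_cases hz : z ∈ Iic t <;> simp [indicator, hz]
  · have : ∀ᵐ z ∂ρ, z ≠ t₀ := by
      rw [ae_iff]
      simpa using h t₀
    filter_upwards [this] with z hz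
    rcases lt_or_gt_of_ne hz with hlt | hgt
    · have : (fun t : ℝ => (Iic t).indicator (fun _ => (1 : ℝ)) z) =ᶠ[𝓝 t₀] fun _ => 1 := by
        filter_upwards [lt_mem_nhds hlt] with t ht
        simp [indicator, le_of_lt ht]
      exact (continuousAt_const).congr this.symm
    · have : (fun t : ℝ => (Iic t).indicator (fun _ => (1 : ℝ)) z) =ᶠ[𝓝 t₀] fun _ => 0 := by
        filter_upwards [gt_mem_nhds hgt] with t ht
        simp [indicator, not_le.2 ht]
      exact (continuousAt_const).congr this.symm

theorem exists_half_real (ρ : Measure ℝ) [IsFiniteMeasure ρ] (h : ∀ t : ℝ, ρ {t} = 0) :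
    ∃ S : Set ℝ, MeasurableSet S ∧ ρ S = ρ univ / 2 := by
  rcases eq_or_ne (ρ univ) 0 with h0 | h0
  · exact ⟨∅, MeasurableSet.empty, by simp [h0]⟩
  have hpos : 0 < ρ.real univ := by
    rw [Measure.real]
    exact ENNReal.toReal_pos h0 (measure_ne_top _ _)
  have hbot : Tendsto (fun t : ℝ => ρ.real (Iic t)) atBot (𝓝 0) := by
    have h1 := tendsto_measure_iInter_atBot (μ := ρ) (s := fun t : ℝ => Iic t)
      (fun t => measurableSet_Iic.nullMeasurableSet) (fun a b hab => Iic_subset_Iic.2 hab)
      ⟨0, measure_ne_top _ _⟩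
    have h2 : (⋂ t : ℝ, Iic t) = ∅ := by
      ext z
      simp only [mem_iInter, mem_Iic, mem_empty_iff_false, iff_false, not_forall, not_le]
      exact ⟨z - 1, by linarith⟩
    rw [h2, measure_empty] at h1
    exact (ENNReal.tendsto_toReal ENNReal.zero_ne_top).comp h1
  have htop : Tendsto (fun t : ℝ => ρ.real (Iic t)) atTop (𝓝 (ρ.real univ)) := by
    have := tendsto_measure_Iic_atTop ρ
    exact (ENNReal.tendsto_toReal (measure_ne_top _ _)).comp this
  have hlo : ∃ t, ρ.real (Iic t) ≤ ρ.real univ / 2 := by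
    have := (hbot.eventually (ge_mem_nhds (show (0 : ℝ) < ρ.real univ / 2 by linarith))).exists
    exact this
  have hhi : ∃ t, ρ.real univ / 2 ≤ ρ.real (Iic t) := by
    have := (htop.eventually (le_mem_nhds (show ρ.real univ / 2 < ρ.real univ by linarith))).exists
    exact this
  obtain ⟨t, ht⟩ := mem_range_of_exists_le_of_exists_ge (continuous_cdf' ρ h) hlo hhi
  refine ⟨Iic t, measurableSet_Iic, ?_⟩
  have : (ρ (Iic t)).toReal = (ρ univ / 2).toReal := by
    rw [ENNReal.toReal_div]
    simpa [Measure.real] using ht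
  refine (ENNReal.toReal_eq_toReal_iff' (measure_ne_top _ _) ?_).1 this
  exact ENNReal.div_ne_top (measure_ne_top _ _) (by norm_num)

variable {α : Type*}

/-- Halving an arbitrary set for a totally defined finite measure vanishing on singletons, on a
set which injects into the reals. -/
theorem exists_half (μ : @Measure α ⊤) [@IsFiniteMeasure α ⊤ μ] (hμ : ∀ a, μ {a} = 0)
    (x : α → ℝ) (hx : Function.Injective x) (A : Set α) :
    ∃ A' ⊆ A, μ A' = μ A / 2 := by
  let _ : MeasurableSpace α := ⊤
  have hxm : Measurable x := measurable_from_top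
  let ρ : Measure ℝ := (μ.restrict A).map x
  have : IsFiniteMeasure ρ := by
    refine ⟨?_⟩
    rw [Measure.map_apply hxm MeasurableSet.univ]
    exact measure_lt_top _ _
  have hρ : ∀ t, ρ {t} = 0 := by
    intro t
    rw [Measure.map_apply hxm (measurableSet_singleton t)]
    refine le_antisymm ((Measure.restrict_apply_le _ _).trans ?_) bot_le
    have hs : (x ⁻¹' {t}).Subsingleton := by
      intro a ha b hb
      exact hx (by rw [ha, hb])
    rcases hs.eq_empty_or_singleton with h | ⟨a, h⟩
    · rw [h]; simp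
    · rw [h, hμ]
  obtain ⟨S, hS, hSh⟩ := exists_half_real ρ hρ
  refine ⟨x ⁻¹' S ∩ A, inter_subset_right, ?_⟩
  rw [Measure.map_apply hxm hS, Measure.map_apply hxm MeasurableSet.univ,
    Measure.restrict_apply (hxm hS), preimage_univ, Measure.restrict_apply MeasurableSet.univ,
    univ_inter] at hSh
  exact hSh

/-- Simultaneous halving of the fibres of a map into a countable type. -/
theorem exists_half_fibres (μ : @Measure α ⊤) [@IsFiniteMeasure α ⊤ μ] (hμ : ∀ a, μ {a} = 0)
    (x : α → ℝ) (hx : Function.Injective x) {L : Type*} [Countable L] (g : α → L) :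
    ∃ D : Set α, ∀ T : Set L, μ (D ∩ g ⁻¹' T) = μ (g ⁻¹' T) / 2 := by
  let _ : MeasurableSpace α := ⊤
  choose E hE hE2 using fun s : L => exists_half μ hμ x hx (g ⁻¹' {s})
  refine ⟨⋃ s, E s, fun T => ?_⟩
  have h1 : (⋃ s, E s) ∩ g ⁻¹' T = ⋃ s : T, E s := by
    ext a
    simp only [mem_inter_iff, mem_iUnion, mem_preimage]
    constructor
    · rintro ⟨⟨s, hs⟩, ha⟩
      have : g a = s := hE s hs
      exact ⟨⟨s, this ▸ ha⟩, hs⟩
    · rintro ⟨⟨s, hsT⟩, hs⟩
      have : g a = s := hE s hs
      exact ⟨⟨s, hs⟩, this ▸ hsT⟩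
  have h2 : g ⁻¹' T = ⋃ s : T, g ⁻¹' {(s : L)} := by
    ext a
    simp
  have hdisj : Pairwise (Function.onFun Disjoint fun s : T => g ⁻¹' {(s : L)}) := by
    intro s t hst
    refine Set.disjoint_left.2 fun a ha hb => hst (Subtype.ext ?_)
    rw [mem_preimage, mem_singleton_iff] at ha hb
    exact ha.symm.trans hb
  have hdisj2 : Pairwise (Function.onFun Disjoint fun s : T => E (s : L)) := fun s t hst =>
    (hdisj hst).mono (hE _) (hE _)
  rw [h1, measure_iUnion hdisj2 (fun _ => MeasurableSpace.measurableSet_top)]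
  conv_rhs => rw [h2, measure_iUnion hdisj (fun _ => MeasurableSpace.measurableSet_top)]
  simp_rw [hE2, div_eq_mul_inv]
  rw [ENNReal.tsum_mul_right]

/-- A fair coin. -/
noncomputable def coin : Measure Bool := (2⁻¹ : ENNReal) • (Measure.dirac true + Measure.dirac false)

instance : IsProbabilityMeasure coin := by
  constructor
  unfold coin
  rw [Measure.smul_apply, Measure.add_apply, measure_univ, measure_univ, smul_eq_mul,
    one_add_one_eq_two]
  exact ENNReal.inv_mul_cancel (by norm_num) (by norm_num)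

theorem coin_apply (S : Set Bool) :
    coin S = 2⁻¹ * (S.indicator 1 true + S.indicator 1 false) := by
  unfold coin
  rw [Measure.smul_apply, Measure.add_apply, Measure.dirac_apply, Measure.dirac_apply,
    smul_eq_mul]

theorem coin_singleton (b : Bool) : coin {b} = 2⁻¹ := by
  rw [coin_apply]
  cases b <;> simp

/-- The product of countably many fair coins: the usual measure of Cantor space. -/
noncomputable def cantorMeasure : Measure (ℕ → Bool) := Measure.infinitePi fun _ => coin

instance : IsProbabilityMeasure cantorMeasure := by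
  unfold cantorMeasure
  infer_instance

/-- A fair coin-tossing map on a totally defined probability space which injects into `ℝ`. -/
theorem exists_coin_map (μ : @Measure α ⊤) [@IsProbabilityMeasure α ⊤ μ] (hμ : ∀ a, μ {a} = 0)
    (x : α → ℝ) (hx : Function.Injective x) :
    ∃ f : α → ℕ → Bool, @Measure.map α (ℕ → Bool) ⊤ _ f μ = cantorMeasure := by
  classical
  let _ : MeasurableSpace α := ⊤
  choose D hD using fun g : α → List Bool => exists_half_fibres μ hμ x hx g
  let g : ℕ → α → List Bool := fun k => Nat.rec (fun _ => [])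
    (fun _ gk a => decide (a ∈ D gk) :: gk a) k
  have hg : ∀ k a, g (k + 1) a = decide (a ∈ D (g k)) :: g k a := fun k a => rfl
  let f : α → ℕ → Bool := fun a k => decide (a ∈ D (g k))
  have hdet : ∀ k a a', g k a = g k a' → ∀ j < k, f a j = f a' j := by
    intro k
    induction k with
    | zero => intro a a' _ j hj; exact absurd hj (Nat.not_lt_zero _)
    | succ k ih =>
      intro a a' h j hj
      rw [hg, hg, List.cons.injEq] at h
      rcases Nat.lt_succ_iff_lt_or_eq.1 hj with hlt | rfl
      · exact ih a a' h.2 j hlt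
      · exact h.1
  have hhalf1 : ∀ k (T : Set (List Bool)) (b : Bool),
      μ ({a | f a k = b} ∩ g k ⁻¹' T) = 2⁻¹ * μ (g k ⁻¹' T) := by
    intro k T b
    have ht : μ (D (g k) ∩ g k ⁻¹' T) = 2⁻¹ * μ (g k ⁻¹' T) := by
      rw [hD, div_eq_mul_inv, mul_comm]
    cases b with
    | true =>
      have : {a | f a k = true} = D (g k) := by
        ext a
        simp [f]
      rw [this, ht]
    | false =>
      have h1 : {a | f a k = false} ∩ g k ⁻¹' T = g k ⁻¹' T \ (D (g k) ∩ g k ⁻¹' T) := by
        ext a
        simp [f]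
        tauto
      rw [h1, measure_sdiff inter_subset_right
        MeasurableSpace.measurableSet_top.nullMeasurableSet (measure_ne_top _ _), ht]
      have hfin : μ (g k ⁻¹' T) ≠ ⊤ := measure_ne_top _ _
      have h2 : (μ (g k ⁻¹' T)) = 2⁻¹ * μ (g k ⁻¹' T) + 2⁻¹ * μ (g k ⁻¹' T) := by
        rw [← add_mul, ENNReal.inv_two_add_inv_two, one_mul]
      refine ENNReal.sub_eq_of_eq_add (ENNReal.mul_ne_top (by norm_num) hfin) h2
  have hhalf : ∀ k (T : Set (List Bool)) (S : Set Bool),
      μ ({a | f a k ∈ S} ∩ g k ⁻¹' T) = coin S * μ (g k ⁻¹' T) := by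
    intro k T S
    have h1 : {a | f a k ∈ S} ∩ g k ⁻¹' T = ⋃ b : S, ({a | f a k = b} ∩ g k ⁻¹' T) := by
      ext a
      simp only [mem_inter_iff, mem_ofPred_eq, mem_preimage, mem_iUnion]
      constructor
      · rintro ⟨h, h'⟩
        exact ⟨⟨_, h⟩, rfl, h'⟩
      · rintro ⟨⟨b, hb⟩, h, h'⟩
        exact ⟨by rw [h]; exact hb, h'⟩
    have h2 : Pairwise (Function.onFun Disjoint fun b : S => ({a | f a k = b} ∩ g k ⁻¹' T)) := by
      intro b b' hbb
      refine Set.disjoint_left.2 fun a ha ha' => hbb (Subtype.ext ?_)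
      exact ha.1.symm.trans ha'.1
    rw [h1, measure_iUnion h2 (fun _ => MeasurableSpace.measurableSet_top)]
    simp_rw [hhalf1]
    rw [ENNReal.tsum_mul_right]
    congr 1
    have h3 : coin S = coin (⋃ b : S, {(b : Bool)}) := by
      congr 1
      ext b
      simp
    rw [h3, measure_iUnion ?_ (fun b => measurableSet_singleton _)]
    · simp_rw [coin_singleton]
    · intro b b' hbb
      refine Set.disjoint_singleton.2 fun h => hbb (Subtype.ext h)
  refine ⟨f, ?_⟩
  unfold cantorMeasure
  refine Measure.eq_infinitePi _ fun s t ht => ?_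
  rw [Measure.map_apply measurable_from_top
    (MeasurableSet.pi s.countable_toSet fun i _ => ht i)]
  have hpre : f ⁻¹' (Set.pi s t) = {a | ∀ j ∈ s, f a j ∈ t j} := by
    ext a
    simp [Set.mem_pi]
  rw [hpre]
  clear hpre
  induction s using Finset.induction_on_max with
  | empty => simp
  | insert k s hs ih =>
    have hk : k ∉ s := fun h => lt_irrefl _ (hs k h)
    have h1 : {a | ∀ j ∈ insert k s, f a j ∈ t j}
        = {a | f a k ∈ t k} ∩ g k ⁻¹' (g k '' {a | ∀ j ∈ s, f a j ∈ t j}) := by
      ext a
      simp only [Finset.mem_insert, forall_eq_or_imp, mem_ofPred_eq, mem_inter_iff, mem_preimage,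
        mem_image]
      refine and_congr_right fun _ => ⟨fun h => ⟨a, h, rfl⟩, ?_⟩
      rintro ⟨a', ha', hga⟩ j hj
      rw [← hdet k a' a hga j (hs j hj)]
      exact ha' j hj
    have h2 : g k ⁻¹' (g k '' {a | ∀ j ∈ s, f a j ∈ t j}) = {a | ∀ j ∈ s, f a j ∈ t j} := by
      ext a
      simp only [mem_ofPred_eq, mem_preimage, mem_image]
      refine ⟨?_, fun h => ⟨a, h, rfl⟩⟩
      rintro ⟨a', ha', hga⟩ j hj
      rw [← hdet k a' a hga j (hs j hj)]
      exact ha' j hj
    rw [h1, hhalf, h2, ih, Finset.prod_insert hk]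

/-- The measure of the set of points with given values on a finite set. -/
theorem cantorMeasure_const (s : Finset ℕ) (b : Bool) :
    cantorMeasure {z | ∀ j ∈ s, z j = b} = (2⁻¹ : ENNReal) ^ s.card := by
  have h : {z : ℕ → Bool | ∀ j ∈ s, z j = b} = Set.pi s fun _ => {b} := by
    ext z
    simp [Set.mem_pi]
  rw [h]
  unfold cantorMeasure
  rw [Measure.infinitePi_pi _ (fun _ _ => measurableSet_singleton _)]
  simp [coin_singleton]

end Lib_helper75.RVM
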