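import Pool.Agent.Lib_helper75.RVM.Basic
import Pool.Agent.Lib_helper75.RVM.CoinMap
/-! # Laws of total measures and Sierpinski sequences -/

open MeasureTheory Set Filter Topology Cardinal

namespace Lib_helper75.RVM

/-- A probability measure defined on all subsets of `α`, vanishing on singletons and additive for
fewer than `#α` pairwise disjoint sets. -/
def IsTot (α : Type) (μ : @Measure α ⊤) : Prop :=
  @IsProbabilityMeasure α ⊤ μ ∧ (∀ a, μ {a} = 0) ∧
    ∀ (ι : Type) (A : ι → Set α), #ι < #α → Pairwise (Function.onFun Disjoint A) →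
      μ (⋃ i, A i) = ∑' i, μ (A i)

/-- The image of a total measure under a map into Cantor space. -/
noncomputable def law {α : Type} (y : α → ℕ → Bool) (μ : @Measure α ⊤) : Measure (ℕ → Bool) :=
  @Measure.map α (ℕ → Bool) ⊤ _ y μ

variable {α : Type} {μ : @Measure α ⊤}

theorem law_apply (y : α → ℕ → Bool) (μ : @Measure α ⊤) {s : Set (ℕ → Bool)}
    (hs : MeasurableSet s) : law y μ s = μ (y ⁻¹' s) := by
  let _ : MeasurableSpace α := ⊤
  exact Measure.map_apply measurable_from_top hs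

theorem IsTot.isProb_law (h : IsTot α μ) (y : α → ℕ → Bool) : IsProbabilityMeasure (law y μ) := by
  let _ : MeasurableSpace α := ⊤
  have := h.1
  exact Measure.isProbabilityMeasure_map measurable_from_top.aemeasurable

theorem IsTot.null_of_lt (h : IsTot α μ) {A : Set α} (hA : #A < #α) : μ A = 0 := by
  have := null_iUnion h.2.2 A (fun a => {a.1}) hA (fun a => h.2.1 a)
  simpa using this

/-- Pushing a total measure forward along an injective map. -/
theorem IsTot.push (h : IsTot α μ) (g : α → α) (hg : Function.Injective g) :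
    ∃ μ' : @Measure α ⊤, IsTot α μ' ∧ (∀ S : Set α, μ' S = μ (g ⁻¹' S)) := by
  obtain ⟨hp, h0, hadd⟩ := h
  let _ : MeasurableSpace α := ⊤
  have hgm : Measurable g := measurable_from_top
  have happ : ∀ S : Set α, (μ.map g) S = μ (g ⁻¹' S) := fun S =>
    Measure.map_apply hgm MeasurableSpace.measurableSet_top
  refine ⟨μ.map g, ⟨?_, ?_, ?_⟩, happ⟩
  · exact Measure.isProbabilityMeasure_map hgm.aemeasurable
  · intro a
    rw [happ]
    have hs : (g ⁻¹' {a}).Subsingleton := by
      intro b hb c hc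
      exact hg (by rw [hb, hc])
    rcases hs.eq_empty_or_singleton with h | ⟨b, h⟩
    · rw [h]; simp
    · rw [h, h0]
  · intro ι B hι hB
    simp_rw [happ]
    rw [preimage_iUnion]
    exact hadd ι _ hι fun i j hij => (hB hij).preimage g

theorem exists_tot_of_mk_eq (h : ∃ μ, IsTot α μ) {A : Set α} (hA : #A = #α) :
    ∃ μ, IsTot α μ ∧ μ Aᶜ = 0 := by
  obtain ⟨μ, h⟩ := h
  obtain ⟨e⟩ := Cardinal.eq.1 hA.symm
  obtain ⟨μ', hμ', happ⟩ := h.push (fun a => e a)
    fun a b hab => e.injective (Subtype.ext hab)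
  refine ⟨μ', hμ', ?_⟩
  rw [happ]
  have : (fun a => (e a : α)) ⁻¹' Aᶜ = ∅ := by
    ext a
    simp
  rw [this]
  simp

theorem IsTot.cond (h : IsTot α μ) {B : Set α} (hB : μ B ≠ 0) :
    ∃ μ' : @Measure α ⊤, IsTot α μ' ∧ (∀ S, μ S = 0 → μ' S = 0) ∧ μ' Bᶜ = 0 := by
  obtain ⟨hp, h0, hadd⟩ := h
  let _ : MeasurableSpace α := ⊤
  have hBt : μ B ≠ ⊤ := measure_ne_top _ _
  have happ : ∀ S : Set α, ((μ B)⁻¹ • μ.restrict B) S = (μ B)⁻¹ * μ (S ∩ B) := by
    intro S
    rw [Measure.smul_apply, Measure.restrict_apply MeasurableSpace.measurableSet_top, smul_eq_mul]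
  have hac : ∀ S, μ S = 0 → ((μ B)⁻¹ • μ.restrict B) S = 0 := by
    intro S hS
    rw [happ, measure_mono_null inter_subset_left hS, mul_zero]
  refine ⟨(μ B)⁻¹ • μ.restrict B, ⟨?_, ?_, ?_⟩, hac, ?_⟩
  · constructor
    rw [happ, univ_inter]
    exact ENNReal.inv_mul_cancel hB hBt
  · exact fun a => hac _ (h0 a)
  · intro ι A hι hA
    simp_rw [happ]
    rw [ENNReal.tsum_mul_left, iUnion_inter]
    congr 1
    exact hadd ι _ hι fun i j hij => (hA hij).mono inter_subset_left inter_subset_left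
  · rw [happ]
    simp

/-- Only countably many members of a pairwise singular family of finite measures are not singular
to a given finite measure. -/
theorem countable_not_mutuallySingular {Ω : Type*} [MeasurableSpace Ω] (ν : Measure Ω)
    [IsFiniteMeasure ν] (M : Set (Measure Ω)) (hf : ∀ m ∈ M, IsFiniteMeasure m)
    (hM : M.Pairwise Measure.MutuallySingular) (hν : ∀ m ∈ M, ¬ m ⟂ₘ ν) : M.Countable := by
  classical
  have hfin : ∀ m : M, IsFiniteMeasure m.1 := fun m => hf m.1 m.2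
  -- the part of `ν` which is absolutely continuous with respect to `m`
  let p : M → Measure Ω := fun m => (m.1).withDensity (ν.rnDeriv m.1)
  have hp : ∀ m : M, p m ≤ ν := fun m => Measure.withDensity_rnDeriv_le _ _
  have hpac : ∀ m : M, p m ≪ m.1 := fun m => withDensity_absolutelyContinuous _ _
  have hp0 : ∀ m : M, p m Set.univ ≠ 0 := by
    intro m h0
    have h1 : p m = 0 := Measure.measure_univ_eq_zero.1 h0
    have h2 := Measure.haveLebesgueDecomposition_add ν m.1
    have h3 : ν = ν.singularPart m.1 := by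
      conv_lhs => rw [h2]
      change ν.singularPart m.1 + p m = _
      rw [h1, add_zero]
    refine hν m.1 m.2 ?_
    rw [h3]
    exact (Measure.mutuallySingular_singularPart ν m.1).symm
  have hsum : ∀ T : Finset M, ∑ m ∈ T, p m Set.univ ≤ ν Set.univ := by
    intro T
    -- disjoint carriers
    let s : M → M → Set Ω := fun m m' =>
      if h : m.1 ⟂ₘ m'.1 then h.nullSet else ∅
    have hs : ∀ m m' : M, m ≠ m' → MeasurableSet (s m m') ∧ m.1 (s m m') = 0 ∧
        m'.1 (s m m')ᶜ = 0 := by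
      intro m m' hne
      have h : m.1 ⟂ₘ m'.1 := hM m.2 m'.2 fun h => hne (Subtype.ext h)
      have h1 : s m m' = h.nullSet := dif_pos h
      rw [h1]
      exact ⟨h.measurableSet_nullSet, h.measure_nullSet, h.measure_compl_nullSet⟩
    let C : M → Set Ω := fun m => ⋂ m' ∈ T.erase m, ((s m m')ᶜ ∩ s m' m)
    have hCm : ∀ m, MeasurableSet (C m) := by
      intro m
      refine Finset.measurableSet_biInter _ fun m' hm' => ?_
      have hne := (Finset.mem_erase.1 hm').1
      exact ((hs m m' hne.symm).1.compl).inter (hs m' m hne).1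
    have hC0 : ∀ m : M, m.1 (C m)ᶜ = 0 := by
      intro m
      have h1 : (C m)ᶜ ⊆ ⋃ m' ∈ T.erase m, (s m m' ∪ (s m' m)ᶜ) := by
        intro z hz
        simp only [C, mem_compl_iff, mem_iInter, mem_inter_iff, not_forall, mem_iUnion,
          mem_union] at hz ⊢
        obtain ⟨m', hm', hz⟩ := hz
        exact ⟨m', hm', by tauto⟩
      refine measure_mono_null h1 ?_
      refine (measure_biUnion_null_iff (T.erase m).countable_toSet).2 fun m' hm' => ?_
      have hne := (Finset.mem_erase.1 hm').1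
      exact measure_union_null (hs m m' hne.symm).2.1 (hs m' m hne).2.2
    have hCd : (T : Set M).PairwiseDisjoint C := by
      intro m hm m' hm' hne
      refine Set.disjoint_left.2 fun z hz hz' => ?_
      have h1 := mem_iInter₂.1 hz m' (Finset.mem_erase.2 ⟨hne.symm, hm'⟩)
      have h2 := mem_iInter₂.1 hz' m (Finset.mem_erase.2 ⟨hne, hm⟩)
      exact h1.1 h2.2
    calc ∑ m ∈ T, p m Set.univ ≤ ∑ m ∈ T, ν (C m) := by
          refine Finset.sum_le_sum fun m _ => ?_
          have h1 : p m (C m)ᶜ = 0 := hpac m (hC0 m)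
          calc p m Set.univ = p m (C m ∪ (C m)ᶜ) := by rw [union_compl_self]
            _ ≤ p m (C m) + p m (C m)ᶜ := measure_union_le _ _
            _ = p m (C m) := by rw [h1, add_zero]
            _ ≤ ν (C m) := hp m _
      _ = ν (⋃ m ∈ T, C m) := (measure_biUnion_finset hCd fun m _ => hCm m).symm
      _ ≤ ν Set.univ := measure_mono (subset_univ _)
  have htsum : ∑' m : M, p m Set.univ ≠ ⊤ := by
    refine ne_top_of_le_ne_top (measure_ne_top ν Set.univ) ?_
    rw [ENNReal.tsum_eq_iSup_sum]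
    exact iSup_le hsum
  have hc := Summable.countable_support_ennreal htsum
  have huniv : Function.support (fun m : M => p m Set.univ) = Set.univ := by
    ext m
    simpa using hp0 m
  rw [huniv, Set.countable_univ_iff] at hc
  exact hc.to_set

/-- **Sierpinski sequences from small dominating families of laws.** -/
theorem exists_sierpinski (hα : ℵ₀ < #α) (hex : ∃ μ, IsTot α μ) (y : α → ℕ → Bool)
    (hy : ∀ p, #(y ⁻¹' {p}) < #α) (ι : Type) (hι : #ι < #α) (ν : ι → Measure (ℕ → Bool))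
    (hν : ∀ i, IsFiniteMeasure (ν i)) (hdom : ∀ μ, IsTot α μ → ∃ i, ¬ law y μ ⟂ₘ ν i) :
    ∃ x : α → ℕ → Bool, ∀ N : Set (ℕ → Bool), cantorMeasure N = 0 → #(x ⁻¹' N) < #α := by
  classical
  let Laws : Set (Measure (ℕ → Bool)) := {m | ∃ μ, IsTot α μ ∧ law y μ = m}
  have hprob : ∀ m ∈ Laws, IsProbabilityMeasure m := by
    rintro m ⟨μ, hμ, rfl⟩
    exact hμ.isProb_law y
  have hatom : ∀ m ∈ Laws, ∀ z, m {z} = 0 := by
    rintro m ⟨μ, hμ, rfl⟩ z
    rw [law_apply _ _ (measurableSet_singleton z)]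
    exact hμ.null_of_lt (hy z)
  -- a maximal pairwise singular family of laws
  obtain ⟨M, hM⟩ := zorn_subset {M : Set (Measure (ℕ → Bool)) | M ⊆ Laws ∧
      M.Pairwise Measure.MutuallySingular} (by
    intro c hc hchain
    refine ⟨⋃₀ c, ⟨sUnion_subset fun s hs => (hc hs).1, ?_⟩, fun s hs => subset_sUnion_of_mem hs⟩
    rintro m ⟨s, hs, hms⟩ m' ⟨s', hs', hms'⟩ hne
    rcases hchain.total hs hs' with hss | hss
    · exact (hc hs').2 (hss hms) hms' hne
    · exact (hc hs).2 hms (hss hms') hne)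
  obtain ⟨⟨hML, hMp⟩, hMmax⟩ := hM
  have hmax : ∀ μ, IsTot α μ → ∃ m ∈ M, ¬ law y μ ⟂ₘ m := by
    intro μ hμ
    by_contra hcon
    push Not at hcon
    have hmem : law y μ ∈ Laws := ⟨μ, hμ, rfl⟩
    have h1 : insert (law y μ) M ⊆ M := by
      refine hMmax ⟨insert_subset hmem hML, ?_⟩ (subset_insert _ _)
      exact Set.pairwise_insert.2 ⟨hMp, fun m hm _ => ⟨hcon m hm, (hcon m hm).symm⟩⟩
    have h2 := hcon _ (h1 (mem_insert _ _))
    have h3 := hprob _ hmem
    rw [Measure.MutuallySingular.self_iff] at h2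
    rw [h2] at h3
    have h4 := h3.measure_univ
    rw [Measure.coe_zero, Pi.zero_apply] at h4
    exact zero_ne_one h4
  -- it is small
  have hMcard : #M < #α := by
    have hcov : M ⊆ ⋃ i, {m | m ∈ M ∧ ¬ m ⟂ₘ ν i} := by
      intro m hm
      obtain ⟨μ, hμ, hμm⟩ := hML hm
      obtain ⟨i, hi⟩ := hdom μ hμ
      rw [hμm] at hi
      exact mem_iUnion.2 ⟨i, hm, hi⟩
    have hcount : ∀ i, ({m | m ∈ M ∧ ¬ m ⟂ₘ ν i} : Set _).Countable := by
      intro i
      have := hν i
      refine countable_not_mutuallySingular (ν i) _ (fun m hm => ?_) ?_ fun m hm => hm.2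
      · have := hprob m (hML hm.1)
        infer_instance
      · exact hMp.mono fun m hm => hm.1
    have h1 : #M ≤ #ι * ℵ₀ := by
      refine (mk_le_mk_of_subset hcov).trans ((mk_iUnion_le_sum_mk).trans ?_)
      refine (sum_le_sum _ (fun _ => ℵ₀) fun i => le_aleph0_iff_set_countable.2 (hcount i)).trans ?_
      rw [sum_const']
    refine h1.trans_lt ?_
    exact mul_lt_of_lt hα.le hι hα
  -- separating sets and disjoint carriers
  let s : Measure (ℕ → Bool) → Measure (ℕ → Bool) → Set (ℕ → Bool) := fun m m' =>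
    if h : m ⟂ₘ m' then h.nullSet else ∅
  have hs : ∀ m ∈ M, ∀ m' ∈ M, m ≠ m' → MeasurableSet (s m m') ∧ m (s m m') = 0 ∧
      m' (s m m')ᶜ = 0 := by
    intro m hm m' hm' hne
    have h : m ⟂ₘ m' := hMp hm hm' hne
    have h1 : s m m' = h.nullSet := dif_pos h
    rw [h1]
    exact ⟨h.measurableSet_nullSet, h.measure_nullSet, h.measure_compl_nullSet⟩
  let B : Measure (ℕ → Bool) → Set (ℕ → Bool) := fun m =>
    {z | ∀ m' ∈ M, m ≠ m' → z ∉ s m m' ∧ z ∈ s m' m}
  have hBd : ∀ m ∈ M, ∀ m' ∈ M, ∀ z, z ∈ B m → z ∈ B m' → m = m' := by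
    intro m hm m' hm' z hz hz'
    by_contra hne
    exact (hz m' hm' hne).1 (hz' m hm (Ne.symm hne)).2
  have hBnull : ∀ m ∈ M, ∀ μ, IsTot α μ → law y μ ≪ m → μ {a | y a ∉ B m} = 0 := by
    intro m hm μ hμ hac
    have h1 : {a | y a ∉ B m} ⊆ ⋃ m' : M, {a | m ≠ m'.1 ∧ y a ∈ s m m'.1 ∪ (s m'.1 m)ᶜ} := by
      intro a ha
      simp only [B, mem_ofPred_eq, not_forall] at ha
      obtain ⟨m', hm', hne, hz⟩ := ha
      refine mem_iUnion.2 ⟨⟨m', hm'⟩, hne, ?_⟩
      simp only [mem_union, mem_compl_iff]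
      tauto
    refine measure_mono_null (μ := μ) h1 (null_iUnion hμ.2.2 M _ hMcard ?_)
    rintro ⟨m', hm'⟩
    by_cases hne : m = m'
    · have : {a | m ≠ m' ∧ y a ∈ s m m' ∪ (s m' m)ᶜ} = ∅ := by
        ext a
        simp [hne]
      change μ {a | m ≠ m' ∧ y a ∈ s m m' ∪ (s m' m)ᶜ} = 0
      rw [this]
      simp
    · have hsm := hs m hm m' hm' hne
      have hsm' := hs m' hm' m hm (Ne.symm hne)
      have h2 : m (s m m' ∪ (s m' m)ᶜ) = 0 := measure_union_null hsm.2.1 hsm'.2.2
      have h3 := hac h2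
      rw [law_apply _ _ (hsm.1.union hsm'.1.compl)] at h3
      refine measure_mono_null (μ := μ) ?_ h3
      rintro a ⟨-, ha⟩
      exact ha
  -- measurable isomorphisms with the coin tossing measure
  have hf : ∀ m : M, ∃ f : (ℕ → Bool) → ℕ → Bool, Measurable f ∧
      (m.1).map f = cantorMeasure := by
    intro m
    have := hprob m.1 (hML m.2)
    exact exists_coin_map' m.1 (canHalve_of_noAtoms m.1 (hatom m.1 (hML m.2)))
  choose f hfm hf using hf
  let x : α → ℕ → Bool := fun a =>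
    if h : ∃ m : M, y a ∈ B m.1 then f h.choose (y a) else fun _ => false
  have hx : ∀ (m : M) a, y a ∈ B m.1 → x a = f m (y a) := by
    intro m a ha
    have h : ∃ m : M, y a ∈ B m.1 := ⟨m, ha⟩
    have h1 : x a = f h.choose (y a) := dif_pos h
    have h2 : h.choose = m := Subtype.ext (hBd _ h.choose.2 _ m.2 _ h.choose_spec ha)
    rw [h1, h2]
  refine ⟨x, fun N₀ hN₀ => ?_⟩
  obtain ⟨N, hNN, hNm, hN⟩ := exists_measurable_superset_of_null hN₀
  refine lt_of_le_of_lt (mk_le_mk_of_subset (preimage_mono hNN)) ?_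
  by_contra hcon
  rw [not_lt] at hcon
  have hcard : #(x ⁻¹' N) = #α := le_antisymm (mk_set_le _) hcon
  obtain ⟨μ, hμ, hμN⟩ := exists_tot_of_mk_eq hex hcard
  obtain ⟨m, hm, hns⟩ := hmax μ hμ
  have hpm := hprob m (hML hm)
  have hpl := hμ.isProb_law y
  have hfm' : IsFiniteMeasure m := by infer_instance
  have hfl : IsFiniteMeasure (law y μ) := by infer_instance
  have hleb : (law y μ).HaveLebesgueDecomposition m :=
    Measure.haveLebesgueDecomposition_of_finiteMeasure
  -- the absolutely continuous part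
  have hsp := Measure.mutuallySingular_singularPart (law y μ) m
  set S := hsp.nullSet with hS
  have hSm : MeasurableSet S := hsp.measurableSet_nullSet
  have hS0 : (law y μ).singularPart m S = 0 := hsp.measure_nullSet
  have hS1 : m Sᶜ = 0 := hsp.measure_compl_nullSet
  have hpos : μ (y ⁻¹' S) ≠ 0 := by
    intro h0
    rw [← law_apply y μ hSm] at h0
    exact hns ⟨S, hSm, h0, hS1⟩
  obtain ⟨μ', hμ', hac', hcomp⟩ := hμ.cond hpos
  have hacm : law y μ' ≪ m := by
    refine Measure.AbsolutelyContinuous.mk fun T hT hT0 => ?_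
    rw [law_apply y μ' hT]
    have h1 : law y μ (T ∩ S) = 0 := by
      rw [Measure.haveLebesgueDecomposition_add (law y μ) m, Measure.add_apply]
      have h2 : (law y μ).singularPart m (T ∩ S) = 0 := measure_mono_null inter_subset_right hS0
      have h3 : (m.withDensity ((law y μ).rnDeriv m)) (T ∩ S) = 0 :=
        withDensity_absolutelyContinuous _ _ (measure_mono_null inter_subset_left hT0)
      rw [h2, h3, add_zero]
    rw [law_apply y μ (hT.inter hSm)] at h1
    have h4 := hac' _ h1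
    have h5 : y ⁻¹' T ⊆ y ⁻¹' (T ∩ S) ∪ (y ⁻¹' S)ᶜ := by
      intro a ha
      by_cases hS' : y a ∈ S
      · exact Or.inl ⟨ha, hS'⟩
      · exact Or.inr hS'
    refine measure_mono_null (μ := μ') h5 ?_
    exact measure_union_null (μ := μ') h4 hcomp
  have hB' := hBnull m hm μ' hμ' hacm
  have hfN : μ' (y ⁻¹' (f ⟨m, hm⟩ ⁻¹' N)) = 0 := by
    rw [← law_apply y μ' (hfm ⟨m, hm⟩ hNm)]
    refine hacm ?_
    have h1 : (m.map (f ⟨m, hm⟩)) N = 0 := by
      rw [hf ⟨m, hm⟩]
      exact hN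
    rwa [Measure.map_apply (hfm ⟨m, hm⟩) hNm] at h1
  have hxN : μ' (x ⁻¹' N)ᶜ = 0 := hac' _ hμN
  have huniv : (Set.univ : Set α) ⊆ {a | y a ∉ B m} ∪ (y ⁻¹' (f ⟨m, hm⟩ ⁻¹' N)
      ∪ (x ⁻¹' N)ᶜ) := by
    intro a _
    by_cases h1 : y a ∈ B m
    · by_cases h2 : x a ∈ N
      · rw [hx ⟨m, hm⟩ a h1] at h2
        exact Or.inr (Or.inl h2)
      · exact Or.inr (Or.inr h2)
    · exact Or.inl h1
  have h0 : μ' Set.univ = 0 := measure_mono_null (μ := μ') huniv
    (measure_union_null (μ := μ') hB' (measure_union_null (μ := μ') hfN hxN))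
  have h1 : μ' Set.univ = 1 := hμ'.1.measure_univ
  rw [h0] at h1
  exact zero_ne_one h1

theorem cantorMeasure_singleton (p : ℕ → Bool) : cantorMeasure {p} = 0 := by
  have hle : ∀ n : ℕ, cantorMeasure {p} ≤ (2⁻¹ : ENNReal) ^ n := by
    intro n
    have hsub : ({p} : Set (ℕ → Bool)) ⊆ Set.pi (Finset.range n) fun j => {p j} := by
      rintro w rfl
      simp [Set.mem_pi]
    refine (measure_mono hsub).trans (le_of_eq ?_)
    unfold cantorMeasure
    rw [Measure.infinitePi_pi _ (fun _ _ => measurableSet_singleton _)]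
    simp [coin_singleton]
  have ht : Tendsto (fun n : ℕ => (2⁻¹ : ENNReal) ^ n) atTop (𝓝 0) :=
    ENNReal.tendsto_pow_atTop_nhds_zero_of_lt_one (by norm_num)
  exact le_antisymm (ge_of_tendsto' ht hle) bot_le

/-- A Sierpinski sequence refutes the strong polarized relation. -/
theorem not_strongPolarized_of_sierpinski (x : α → ℕ → Bool)
    (hx : ∀ N : Set (ℕ → Bool), cantorMeasure N = 0 → #(x ⁻¹' N) < #α) : ¬ StrongPolarized α := by
  intro hSP
  obtain ⟨A, hA, B, hB, i, hi⟩ := hSP x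
  have hnull : cantorMeasure {z | ∀ n ∈ B, z n = i} = 0 := by
    have hle : ∀ k : ℕ, cantorMeasure {z | ∀ n ∈ B, z n = i} ≤ (2⁻¹ : ENNReal) ^ k := by
      intro k
      obtain ⟨F, hF, hFk⟩ := hB.exists_subset_card_eq k
      rw [← hFk, ← cantorMeasure_const F i]
      exact measure_mono fun z hz j hj => hz j (hF hj)
    have ht : Tendsto (fun n : ℕ => (2⁻¹ : ENNReal) ^ n) atTop (𝓝 0) :=
      ENNReal.tendsto_pow_atTop_nhds_zero_of_lt_one (by norm_num)
    exact le_antisymm (ge_of_tendsto' ht hle) bot_le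
  have h1 := hx _ hnull
  have h2 : A ⊆ x ⁻¹' {z | ∀ n ∈ B, z n = i} := fun a ha n hn => hi a ha n hn
  have h3 := mk_le_mk_of_subset h2
  rw [hA] at h3
  exact absurd h1 (not_lt.2 h3)

/-- The law of a total measure along a Sierpinski sequence is never singular to the coin tossing
measure. -/
theorem not_singular_of_sierpinski (x : α → ℕ → Bool)
    (hx : ∀ N : Set (ℕ → Bool), cantorMeasure N = 0 → #(x ⁻¹' N) < #α) (h : IsTot α μ) :
    ¬ law x μ ⟂ₘ cantorMeasure := by
  rintro ⟨S, hS, h0, h1⟩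
  rw [law_apply x μ hS] at h0
  have h2 : μ (x ⁻¹' Sᶜ) = 0 := h.null_of_lt (hx _ h1)
  have h3 : μ Set.univ = 0 := by
    have : (Set.univ : Set α) ⊆ x ⁻¹' S ∪ x ⁻¹' Sᶜ := by
      intro a _
      by_cases ha : x a ∈ S
      · exact Or.inl ha
      · exact Or.inr ha
    exact measure_mono_null (μ := μ) this (measure_union_null (μ := μ) h0 h2)
  have h4 : μ Set.univ = 1 := h.1.measure_univ
  rw [h3] at h4
  exact zero_ne_one h4

/-- A family of `κ` many pairwise singular laws, by transfinite recursion. -/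
theorem exists_family (y : α → ℕ → Bool) (A : Set α)
    (hstep : ∀ (ι : Type) (ν : ι → Measure (ℕ → Bool)), #ι < #α → (∀ i, IsFiniteMeasure (ν i)) →
      ∃ μ, IsTot α μ ∧ μ Aᶜ = 0 ∧ ∀ i, law y μ ⟂ₘ ν i) :
    ∃ μ : α → @Measure α ⊤, (∀ a, IsTot α (μ a) ∧ μ a Aᶜ = 0) ∧
      Pairwise fun a b => law y (μ a) ⟂ₘ law y (μ b) := by
  classical
  obtain ⟨e⟩ : Nonempty (α ≃ (#α).ord.ToType) := Cardinal.eq.1 (by simp)
  let I := (#α).ord.ToType
  let T := {μ : @Measure α ⊤ // IsTot α μ ∧ μ Aᶜ = 0}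
  have hstep' : ∀ (t : I) (G : (u : I) → u < t → T), ∃ μ : T, ∀ u (hu : u < t),
      law y μ.1 ⟂ₘ law y (G u hu).1 := by
    intro t G
    obtain ⟨μ, hμ, hA, h⟩ := hstep (Iio t) (fun u => law y (G u.1 u.2).1) (by
      have h1 : #(Iio t) < #(#α).ord.ToType := @mk_Iio_lt (#α).ord.ToType _ _ t (by simp)
      exact h1.trans_eq (mk_ord_toType _)) (fun u => by
        have := (G u.1 u.2).2.1.isProb_law y
        infer_instance)
    exact ⟨⟨μ, hμ, hA⟩, fun u hu => h ⟨u, hu⟩⟩
  choose Φ hΦ using hstep'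
  let G : I → T := wellFounded_lt.fix Φ
  have hG : ∀ t, G t = Φ t (fun u _ => G u) := fun t => wellFounded_lt.fix_eq Φ t
  have hlt : ∀ u t : I, u < t → law y (G t).1 ⟂ₘ law y (G u).1 := by
    intro u t hut
    rw [hG t]
    exact hΦ t (fun u _ => G u) u hut
  refine ⟨fun a => (G (e a)).1, fun a => (G (e a)).2, fun a b hab => ?_⟩
  rcases lt_trichotomy (e a) (e b) with h | h | h
  · exact (hlt _ _ h).symm
  · exact absurd (e.injective h) hab
  · exact hlt _ _ h

/-- Under the strong polarized relation every set of size `κ` carries a total measure whose law is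
singular to fewer than `κ` given measures. -/
theorem exists_singular (hα : ℵ₀ < #α) (hex : ∃ μ, IsTot α μ) (hSP : StrongPolarized α)
    (A : Set α) (hA : #A = #α) (y : α → ℕ → Bool)
    (hy : ∀ p, #(A ∩ y ⁻¹' {p} : Set α) < #α) (ι : Type) (ν : ι → Measure (ℕ → Bool))
    (hι : #ι < #α) (hν : ∀ i, IsFiniteMeasure (ν i)) :
    ∃ μ, IsTot α μ ∧ μ Aᶜ = 0 ∧ ∀ i, law y μ ⟂ₘ ν i := by
  by_contra hcon
  push Not at hcon
  obtain ⟨e⟩ := Cardinal.eq.1 hA.symm
  let g : α → α := fun a => e a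
  have hg : Function.Injective g := fun a b hab => e.injective (Subtype.ext hab)
  have hgA : g ⁻¹' Aᶜ = ∅ := by
    ext a
    simp [g]
  have hfib : ∀ p, #((fun a => y (g a)) ⁻¹' {p}) < #α := by
    intro p
    refine lt_of_le_of_lt ?_ (hy p)
    refine mk_le_of_injective
      (f := fun a : (fun a => y (g a)) ⁻¹' {p} =>
        (⟨g a.1, (e a.1).2, a.2⟩ : (A ∩ y ⁻¹' {p} : Set α))) ?_
    intro a b hab
    have h1 : g a.1 = g b.1 := Subtype.mk_eq_mk.1 hab
    exact Subtype.ext (hg h1)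
  obtain ⟨x, hx⟩ := exists_sierpinski hα hex (fun a => y (g a)) hfib ι hι ν hν (by
    intro μ hμ
    obtain ⟨μ', hμ', happ⟩ := hμ.push g hg
    have h1 : μ' Aᶜ = 0 := by
      rw [happ, hgA]
      simp
    obtain ⟨i, hi⟩ := hcon μ' hμ' h1
    refine ⟨i, ?_⟩
    have h2 : law (fun a => y (g a)) μ = law y μ' := by
      refine Measure.ext fun s hs => ?_
      rw [law_apply _ _ hs, law_apply _ _ hs, happ]
      rfl
    rwa [h2])
  exact not_strongPolarized_of_sierpinski x hx hSP

end Lib_helper75.RVM
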